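import Pool.Agent.CupF.Orient

set_option autoImplicit false

/-!
# An explicit bounded functional on bounded 2-cochains and the exterior square of the Euler class
-/

namespace Pool.Agent.CupF

section functional

variable {Γ : Type*} [Group Γ]

/-- Elements of a group with the relations of `SL₂(ℤ)` that we need. -/
structure Frame (Γ : Type*) [Group Γ] where
  w : Γ
  n : Γ
  u : Γ
  u2 : Γ
  p : ℕ → Γ
  hw : w * w = n
  hn : n * n = 1
  hwp : w * p 0 = u
  huu : u * u = u2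
  hu3 : u2 * u = n
  hpp : ∀ k, p k * p k = p (k + 1)

/-- The functional. -/
noncomputable def Zf (R : Frame Γ) (m : ℕ) (β : Γ → Γ → ℝ) : ℝ :=
  β R.u R.u + β R.u2 R.u - 1 / 4 * (β R.n R.n + β 1 1) + 3 * β R.w (R.p 0) - 3 / 2 * β R.w R.w
    - 3 * ∑ k ∈ Finset.range m, (1 / 2) ^ (k + 1) * β (R.p k) (R.p k)

lemma Zf_add (R : Frame Γ) (m : ℕ) (β γ : Γ → Γ → ℝ) :
    Zf R m (fun x y => β x y + γ x y) = Zf R m β + Zf R m γ := by
  unfold Zf
  simp only [mul_add, Finset.sum_add_distrib]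
  ring

lemma Zf_smul (R : Frame Γ) (m : ℕ) (r : ℝ) (β : Γ → Γ → ℝ) :
    Zf R m (fun x y => r * β x y) = r * Zf R m β := by
  unfold Zf
  have : ∑ k ∈ Finset.range m, (1 / 2 : ℝ) ^ (k + 1) * (r * β (R.p k) (R.p k))
      = r * ∑ k ∈ Finset.range m, (1 / 2 : ℝ) ^ (k + 1) * β (R.p k) (R.p k) := by
    rw [Finset.mul_sum]
    exact Finset.sum_congr rfl fun k _ => by ring
  rw [this]
  ring

lemma geo_sum (m : ℕ) : ∑ k ∈ Finset.range m, (1 / 2 : ℝ) ^ (k + 1) = 1 - (1 / 2) ^ m := by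
  induction m with
  | zero => simp
  | succ m ih => rw [Finset.sum_range_succ, ih]; ring

lemma Zf_abs (R : Frame Γ) (m : ℕ) {β : Γ → Γ → ℝ} {C : ℝ} (h : ∀ x y, |β x y| ≤ C) :
    |Zf R m β| ≤ 10 * C := by
  have hC : 0 ≤ C := (abs_nonneg _).trans (h 1 1)
  have hs : |∑ k ∈ Finset.range m, (1 / 2 : ℝ) ^ (k + 1) * β (R.p k) (R.p k)| ≤ C := by
    calc |∑ k ∈ Finset.range m, (1 / 2 : ℝ) ^ (k + 1) * β (R.p k) (R.p k)|
        ≤ ∑ k ∈ Finset.range m, |(1 / 2 : ℝ) ^ (k + 1) * β (R.p k) (R.p k)| :=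
          Finset.abs_sum_le_sum_abs _ _
      _ ≤ ∑ k ∈ Finset.range m, (1 / 2 : ℝ) ^ (k + 1) * C := by
          refine Finset.sum_le_sum fun k _ => ?_
          rw [abs_mul, abs_of_nonneg (by positivity : (0 : ℝ) ≤ (1 / 2) ^ (k + 1))]
          exact mul_le_mul_of_nonneg_left (h _ _) (by positivity)
      _ = (1 - (1 / 2) ^ m) * C := by rw [← Finset.sum_mul, geo_sum]
      _ ≤ 1 * C := by
          refine mul_le_mul_of_nonneg_right ?_ hC
          have : (0 : ℝ) ≤ (1 / 2) ^ m := by positivity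
          linarith
      _ = C := one_mul C
  have h1 := abs_le.mp (h R.u R.u)
  have h2 := abs_le.mp (h R.u2 R.u)
  have h3 := abs_le.mp (h R.n R.n)
  have h4 := abs_le.mp (h 1 1)
  have h5 := abs_le.mp (h R.w (R.p 0))
  have h6 := abs_le.mp (h R.w R.w)
  have h7 := abs_le.mp hs
  unfold Zf
  rw [abs_le]
  constructor <;> linarith [h1.1, h1.2, h2.1, h2.2, h3.1, h3.2, h4.1, h4.2, h5.1, h5.2, h6.1, h6.2,
    h7.1, h7.2]

lemma Zf_cob (R : Frame Γ) (m : ℕ) (b : Γ → ℝ) :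
    Zf R m (fun x y => b y - b (x * y) + b x) = 3 * ((1 / 2) ^ m * b (R.p m)) := by
  have hs : ∑ k ∈ Finset.range m, (1 / 2 : ℝ) ^ (k + 1)
      * (b (R.p k) - b (R.p k * R.p k) + b (R.p k)) = b (R.p 0) - (1 / 2) ^ m * b (R.p m) := by
    induction m with
    | zero => simp
    | succ m ih =>
        rw [Finset.sum_range_succ, ih, R.hpp]
        ring
  unfold Zf
  rw [hs]
  simp only [R.hw, R.hn, R.hwp, R.huu, R.hu3, mul_one]
  ring

lemma Zf_cob_abs (R : Frame Γ) (m : ℕ) {b : Γ → ℝ} {C : ℝ} (h : ∀ x, |b x| ≤ C) :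
    |Zf R m (fun x y => b y - b (x * y) + b x)| ≤ 3 * ((1 / 2) ^ m * C) := by
  rw [Zf_cob, abs_mul, abs_mul, abs_of_nonneg (by positivity : (0 : ℝ) ≤ (1 / 2) ^ m),
    abs_of_nonneg (by norm_num : (0 : ℝ) ≤ 3)]
  have := mul_le_mul_of_nonneg_left (h (R.p m)) (by positivity : (0 : ℝ) ≤ (1 / 2) ^ m)
  linarith

/-- Quantitative form of `no_primitive`. -/
theorem no_primitive_eps (R : Frame Γ) (f : Γ → Γ → ℝ) (h1 : ∀ x, f 1 x = 0) (h2 : ∀ x, f x 1 = 0)
    (hZ : ∀ m, Zf R m f = 1)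
    (H : Γ × Γ → Γ × Γ → Γ × Γ → ℝ) {C ε : ℝ} (hC : ∀ a b c, |H a b c| ≤ C)
    (hH : ∀ a b c d, |(H b c d - H (a * b) c d + H a (b * c) d - H a b (c * d) + H a b c)
      - f a.1 b.1 * f c.2 d.2| ≤ ε) : 1 ≤ 600 * ε := by
  have hC0 : 0 ≤ C := (abs_nonneg _).trans (hC 1 1 1)
  -- it is enough to have the bound up to small errors
  suffices hsuff : ∀ m : ℕ, 1 ≤ 600 * ε + 180 * C * (1 / 2) ^ m by
    by_contra hlt
    push Not at hlt
    have hpos : 0 < (1 - 600 * ε) / (180 * C + 1) := by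
      apply div_pos <;> linarith
    obtain ⟨m, hm⟩ := exists_pow_lt_of_lt_one hpos (by norm_num : (1 / 2 : ℝ) < 1)
    have h3 := hsuff m
    have h4 : (180 * C + 1) * (1 / 2) ^ m < 1 - 600 * ε := by
      have := mul_lt_mul_of_pos_left hm (by linarith : 0 < 180 * C + 1)
      rwa [mul_div_cancel₀ _ (by linarith : (180 * C + 1) ≠ 0)] at this
    have h5 : (0 : ℝ) < (1 / 2) ^ m := by positivity
    nlinarith
  intro m
  set S : Γ → Γ → Γ → ℝ := fun x a b =>
    H (x, 1) (1, a) (1, b) - H (1, a) (x, 1) (1, b) + H (1, a) (1, b) (x, 1) with hS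
  have hSb : ∀ x a b, |S x a b| ≤ 3 * C := by
    intro x a b
    have e1 := abs_le.mp (hC (x, 1) (1, a) (1, b))
    have e2 := abs_le.mp (hC (1, a) (x, 1) (1, b))
    have e3 := abs_le.mp (hC (1, a) (1, b) (x, 1))
    simp only [hS]
    rw [abs_le]
    constructor <;> linarith [e1.1, e1.2, e2.1, e2.2, e3.1, e3.2]
  set K : Γ → Γ → Γ → ℝ := fun x y c =>
    H (x, 1) (y, 1) (1, c) - H (x, 1) (1, c) (y, 1) + H (1, c) (x, 1) (y, 1) with hK
  have hKb : ∀ x y c, |K x y c| ≤ 3 * C := by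
    intro x y c
    have e1 := abs_le.mp (hC (x, 1) (y, 1) (1, c))
    have e2 := abs_le.mp (hC (x, 1) (1, c) (y, 1))
    have e3 := abs_le.mp (hC (1, c) (x, 1) (y, 1))
    simp only [hK]
    rw [abs_le]
    constructor <;> linarith [e1.1, e1.2, e2.1, e2.2, e3.1, e3.2]
  have key : ∀ x y a b, |(((S y a b + (-1) * S (x * y) a b) + S x a b)
      + (K x y b - K x y (a * b) + K x y a)) + (-1) * (f x y * f a b)| ≤ 6 * ε := by
    intro x y a b
    have e1 := abs_le.mp (hH (x, 1) (y, 1) (1, a) (1, b))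
    have e2 := abs_le.mp (hH (x, 1) (1, a) (y, 1) (1, b))
    have e3 := abs_le.mp (hH (x, 1) (1, a) (1, b) (y, 1))
    have e4 := abs_le.mp (hH (1, a) (x, 1) (y, 1) (1, b))
    have e5 := abs_le.mp (hH (1, a) (x, 1) (1, b) (y, 1))
    have e6 := abs_le.mp (hH (1, a) (1, b) (x, 1) (y, 1))
    simp only [Prod.mk_mul_mk, one_mul, mul_one, h1, h2, mul_zero, zero_mul] at e1 e2 e3 e4 e5 e6
    simp only [hS, hK]
    rw [abs_le]
    constructor <;> linarith [e1.1, e1.2, e2.1, e2.2, e3.1, e3.2, e4.1, e4.2, e5.1, e5.2, e6.1, e6.2]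
  set η : ℝ := 60 * ε + 9 * C * (1 / 2) ^ m with hη
  set b : Γ → ℝ := fun x => Zf R m (S x) with hb
  have hbb : ∀ x, |b x| ≤ 30 * C := fun x => by
    have := Zf_abs R m (hSb x)
    simp only [hb]
    linarith
  have step : ∀ x y, |(b y - b (x * y) + b x) + (-1) * f x y| ≤ η := by
    intro x y
    have e := Zf_abs R m (key x y)
    rw [Zf_add R m (fun a b => ((S y a b + (-1) * S (x * y) a b) + S x a b)
      + (K x y b - K x y (a * b) + K x y a)) (fun a b => (-1) * (f x y * f a b)),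
      Zf_add R m (fun a b => (S y a b + (-1) * S (x * y) a b) + S x a b)
        (fun a b => K x y b - K x y (a * b) + K x y a),
      Zf_add R m (fun a b => S y a b + (-1) * S (x * y) a b) (fun a b => S x a b),
      Zf_add R m (fun a b => S y a b) (fun a b => (-1) * S (x * y) a b),
      Zf_smul R m (-1) (fun a b => S (x * y) a b),
      Zf_smul R m (-1) (fun a b => f x y * f a b), Zf_smul R m (f x y) (fun a b => f a b)] at e
    have e' := abs_le.mp e
    have k := abs_le.mp (Zf_cob_abs R m (hKb x y))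
    have hz : Zf R m (fun a b => f a b) = 1 := hZ m
    rw [hz] at e'
    simp only [hb, hη]
    have hs : ∀ z, Zf R m (fun a b => S z a b) = Zf R m (S z) := fun z => rfl
    rw [hs, hs, hs] at e'
    rw [abs_le]
    constructor <;> linarith [e'.1, e'.2, k.1, k.2]
  have e := Zf_abs R m step
  rw [Zf_add R m (fun x y => b y - b (x * y) + b x) (fun x y => (-1) * f x y),
    Zf_smul R m (-1) (fun x y => f x y)] at e
  have hz : Zf R m (fun a b => f a b) = 1 := hZ m
  rw [hz] at e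
  have e' := abs_le.mp e
  have k := abs_le.mp (Zf_cob_abs R m hbb)
  have : (1 : ℝ) ≤ 10 * η + 3 * ((1 / 2) ^ m * (30 * C)) := by linarith [e'.1, e'.2, k.1, k.2]
  rw [hη] at this
  linarith

end functional

end Pool.Agent.CupF
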