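import Pool.Agent.CupF.Means

set_option autoImplicit false

/-!
# Minimal closed convex left ideals of the semigroup of means over the identity
-/

namespace Pool.Agent.CupF

open Filter Topology

variable {F G : Type*} [Group F] [Group G]

/-- Nonempty closed convex left ideals of the semigroup of means over `1`. -/
structure LId (π : F →* G) (L : Set ((F → ℝ) → ℝ)) : Prop where
  sub : ∀ m ∈ L, IsMean π 1 m
  ne : L.Nonempty
  cl : IsClosed L
  cv : Convex ℝ L
  id : ∀ p m, IsMean π 1 p → m ∈ L → ar p m ∈ L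

variable {π : F →* G}

lemma LId.isCompact {L : Set ((F → ℝ) → ℝ)} (h : LId π L) : IsCompact L :=
  (isCompact_mean π 1).of_isClosed_subset h.cl h.sub

lemma lid_top (π : F →* G) : LId π {m | IsMean π 1 m} := by
  refine ⟨fun m hm => hm, ⟨dirac 1, ?_⟩, isClosed_mean π 1, convex_mean π 1, fun p m hp hm => ?_⟩
  · have := dirac_mean π (1 : F)
    rw [map_one] at this
    exact this
  · have := ar_mean hp hm
    rw [one_mul] at this
    exact this

lemma exists_min (π : F →* G) : ∃ L, Minimal (fun L => LId π L) L := by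
  refine zorn_superset {L | LId π L} fun c hcs hc => ?_
  obtain rfl | hcn := c.eq_empty_or_nonempty
  · exact ⟨_, lid_top π, by simp⟩
  · refine ⟨⋂₀ c, ⟨fun m hm => ?_, ?_, ?_, ?_, ?_⟩, fun s hs => Set.sInter_subset_of_mem hs⟩
    · obtain ⟨t, ht⟩ := hcn
      exact (hcs ht).sub m (Set.mem_sInter.mp hm t ht)
    · have := hcn.coe_sort
      rw [Set.sInter_eq_iInter]
      refine IsCompact.nonempty_iInter_of_directed_nonempty_isCompact_isClosed _ ?_ ?_ ?_ ?_
      · exact DirectedOn.directed_val (IsChain.directedOn hc.symm)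
      · exact fun i => (hcs i.prop).ne
      · exact fun i => (hcs i.prop).isCompact
      · exact fun i => (hcs i.prop).cl
    · exact isClosed_sInter fun t ht => (hcs ht).cl
    · exact convex_sInter fun t ht => (hcs ht).cv
    · intro p m hp hm
      rw [Set.mem_sInter] at hm ⊢
      exact fun t ht => (hcs ht).id p m hp (hm t ht)

/-- Markov-Kakutani for right multiplication by an element of the ideal. -/
lemma exists_fixed {L : Set ((F → ℝ) → ℝ)} (hL : LId π L) {x : (F → ℝ) → ℝ} (hx : x ∈ L) :
    ∃ y ∈ L, ar y x = y := by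
  obtain ⟨w0, hw0⟩ := hL.ne
  -- the orbit
  let w : ℕ → ((F → ℝ) → ℝ) := fun k => Nat.rec w0 (fun _ z => ar z x) k
  have hw : ∀ k, w k ∈ L := by
    intro k
    induction k with
    | zero => exact hw0
    | succ k ih => exact hL.id _ _ (hL.sub _ ih) hx
  have hws : ∀ k, ar (w k) x = w (k + 1) := fun k => rfl
  -- the averages
  let y : ℕ → ((F → ℝ) → ℝ) := fun n φ => (∑ k ∈ Finset.range (n + 1), w k φ) / (n + 1)
  have hy : ∀ n, y n ∈ L := by
    intro n
    have h1 : y n = ∑ k ∈ Finset.range (n + 1), ((1 : ℝ) / (n + 1)) • w k := by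
      funext φ
      simp only [y, Finset.sum_apply, Pi.smul_apply, smul_eq_mul, Finset.sum_div]
      refine Finset.sum_congr rfl fun k _ => ?_
      ring
    rw [h1]
    refine hL.cv.sum_mem (fun i _ => by positivity) ?_ fun i _ => hw i
    simp
    field_simp
  have hdiff : ∀ n φ, ar (y n) x φ - y n φ = (w (n + 1) φ - w 0 φ) / (n + 1) := by
    intro n φ
    have h2 : ar (y n) x φ = (∑ k ∈ Finset.range (n + 1), w (k + 1) φ) / (n + 1) := rfl
    rw [h2]
    simp only [y]
    rw [← sub_div, ← Finset.sum_sub_distrib, Finset.sum_range_sub (fun k => w k φ)]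
  -- ultrafilter limit
  let U : Ultrafilter ℕ := Filter.hyperfilter ℕ
  have hU : (U : Filter ℕ) ≤ atTop := by
    have := Filter.hyperfilter_le_cofinite (α := ℕ)
    rwa [Nat.cofinite_eq_atTop] at this
  obtain ⟨z, hz, hlim⟩ := hL.isCompact.ultrafilter_le_nhds (U.map y)
    (by
      rw [Filter.le_principal_iff]
      show ∀ᶠ n in (U : Filter ℕ), y n ∈ L
      exact Filter.Eventually.of_forall hy)
  have hlim' : Tendsto y U (𝓝 z) := hlim
  refine ⟨z, hz, ?_⟩
  funext φ
  have t1 : Tendsto (fun n => ar (y n) x φ) U (𝓝 (ar z x φ)) :=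
    (((continuous_apply φ).comp (continuous_ar x)).tendsto z).comp hlim'
  have t2 : Tendsto (fun n => y n φ) U (𝓝 (z φ)) :=
    ((continuous_apply φ).tendsto z).comp hlim'
  have t3 : Tendsto (fun n : ℕ => (w (n + 1) φ - w 0 φ) / ((n : ℝ) + 1)) U (𝓝 0) := by
    refine Tendsto.mono_left ?_ hU
    obtain ⟨C, hC⟩ : ∃ C, ∀ k, |w k φ| ≤ C := by
      by_cases hφ : Bdd φ
      · obtain ⟨C, hC⟩ := hφ
        exact ⟨C, fun k => (hL.sub _ (hw k)).abs_le hC⟩
      · exact ⟨0, fun k => by rw [(hL.sub _ (hw k)).unb φ hφ]; simp⟩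
    have hb : ∀ n : ℕ, |w (n + 1) φ - w 0 φ| ≤ 2 * C := by
      intro n
      calc |w (n + 1) φ - w 0 φ| ≤ |w (n + 1) φ| + |w 0 φ| := abs_sub _ _
        _ ≤ C + C := add_le_add (hC (n + 1)) (hC 0)
        _ = 2 * C := by ring
    have h0 : Tendsto (fun n : ℕ => (2 * C) / ((n : ℝ) + 1)) atTop (𝓝 0) := by
      have := tendsto_one_div_add_atTop_nhds_zero_nat (𝕜 := ℝ)
      simpa [div_eq_mul_inv] using this.const_mul (2 * C)
    refine squeeze_zero_norm (fun n => ?_) h0
    rw [Real.norm_eq_abs, abs_div, abs_of_pos (by positivity : (0:ℝ) < (n : ℝ) + 1)]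
    exact div_le_div_of_nonneg_right (hb n) (by positivity)
  have t4 : Tendsto (fun n => ar (y n) x φ - y n φ) U (𝓝 (ar z x φ - z φ)) := t1.sub t2
  have t5 : Tendsto (fun n => ar (y n) x φ - y n φ) U (𝓝 0) := by
    simpa only [hdiff] using t3
  have := tendsto_nhds_unique t4 t5
  linarith

/-- There is a mean `e` over the identity absorbing all means over the identity. -/
theorem exists_absorbing (π : F →* G) :
    ∃ e, IsMean π 1 e ∧ ∀ p, IsMean π 1 p → ar e (ar p e) = e := by
  obtain ⟨L, hL⟩ := exists_min π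
  have hLI : LId π L := hL.prop
  have key : ∀ x ∈ L, ∀ w ∈ L, ar w x = w := by
    intro x hx
    have h1 : LId π (L ∩ {w | ar w x = w}) := by
      refine ⟨fun m hm => hLI.sub m hm.1, ?_, ?_, ?_, ?_⟩
      · obtain ⟨y, hy, hyx⟩ := exists_fixed hLI hx
        exact ⟨y, hy, hyx⟩
      · exact hLI.cl.inter (isClosed_eq (continuous_ar x) continuous_id)
      · refine hLI.cv.inter ?_
        intro m hm n hn a b _ _ _
        have hm' : ar m x = m := hm
        have hn' : ar n x = n := hn
        show ar (a • m + b • n) x = a • m + b • n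
        have : ar (a • m + b • n) x = a • ar m x + b • ar n x := rfl
        rw [this, hm', hn']
      · intro p m hp hm
        refine ⟨hLI.id p m hp hm.1, ?_⟩
        have hm' : ar m x = m := hm.2
        show ar (ar p m) x = ar p m
        rw [ar_assoc, hm']
    have h2 : L ⊆ L ∩ {w | ar w x = w} := hL.le_of_le h1 Set.inter_subset_left
    exact fun w hw => (h2 hw).2
  obtain ⟨e, he⟩ := hLI.ne
  exact ⟨e, hLI.sub e he, fun p hp => key _ (hLI.id p e hp he) e he⟩

/-- The semigroup section. -/
theorem exists_section (hπ : Function.Surjective π) :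
    ∃ m : G → ((F → ℝ) → ℝ), (∀ g, IsMean π g (m g)) ∧ ∀ g h, ar (m g) (m h) = m (g * h) := by
  obtain ⟨e, he, hab⟩ := exists_absorbing π
  have hee : ar e e = e := by
    have h1 := hab e he
    have h2 : ar e (ar (ar e e) e) = e := by
      have := hab (ar e e) (by simpa using ar_mean he he)
      exact this
    -- e (e e) = e, so e e = e (e (e e)) ...
    have h3 : ar e (ar e (ar e e)) = ar e e := by rw [h1]
    have h4 : ar e (ar (ar e e) e) = ar e (ar e (ar e e)) := by rw [ar_assoc e e e]
    rw [h4, h3] at h2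
    exact h2
  have hindep : ∀ g p p', IsMean π g p → IsMean π g p' → ar e (ar p e) = ar e (ar p' e) := by
    intro g p p' hp hp'
    obtain ⟨v, hv⟩ := hπ g⁻¹
    have hd : IsMean π g⁻¹ (dirac v) := by
      have := dirac_mean π v
      rwa [hv] at this
    set d := dirac v with hd_def
    -- a := e p e, b := e d e, a' := e p' e
    have hab1 : ar (ar e (ar p e)) (ar e (ar d e)) = e := by
      have hq : IsMean π 1 (ar p (ar e d)) := by
        have := ar_mean hp (ar_mean he hd)
        simpa using this
      have := hab _ hq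
      calc ar (ar e (ar p e)) (ar e (ar d e)) = ar e (ar p (ar (ar e e) (ar d e))) := by
            simp only [ar_assoc]
        _ = ar e (ar (ar p (ar e d)) e) := by rw [hee]; simp only [ar_assoc]
        _ = e := this
    have hab2 : ar (ar e (ar d e)) (ar e (ar p' e)) = e := by
      have hq : IsMean π 1 (ar d (ar e p')) := by
        have := ar_mean hd (ar_mean he hp')
        simpa using this
      have := hab _ hq
      calc ar (ar e (ar d e)) (ar e (ar p' e)) = ar e (ar d (ar (ar e e) (ar p' e))) := by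
            simp only [ar_assoc]
        _ = ar e (ar (ar d (ar e p')) e) := by rw [hee]; simp only [ar_assoc]
        _ = e := this
    have h1 : ar e (ar e (ar p' e)) = ar e (ar p' e) := by rw [← ar_assoc, hee]
    have h2 : ar (ar e (ar p e)) e = ar e (ar p e) := by
      simp only [ar_assoc]
      rw [hee]
    calc ar e (ar p e) = ar (ar e (ar p e)) e := h2.symm
      _ = ar (ar e (ar p e)) (ar (ar e (ar d e)) (ar e (ar p' e))) := by rw [hab2]
      _ = ar (ar (ar e (ar p e)) (ar e (ar d e))) (ar e (ar p' e)) := by rw [ar_assoc (ar e (ar p e))]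
      _ = ar e (ar e (ar p' e)) := by rw [hab1]
      _ = ar e (ar p' e) := h1
  choose s hs using hπ
  have hsm : ∀ g, IsMean π g (dirac (s g)) := by
    intro g
    have := dirac_mean π (s g)
    rwa [hs g] at this
  refine ⟨fun g => ar e (ar (dirac (s g)) e), fun g => ?_, fun g h => ?_⟩
  · have := ar_mean he (ar_mean (hsm g) he)
    simpa using this
  · have hq : IsMean π (g * h) (ar (dirac (s g)) (ar e (dirac (s h)))) := by
      have := ar_mean (hsm g) (ar_mean he (hsm h))
      simpa using this
    calc ar (ar e (ar (dirac (s g)) e)) (ar e (ar (dirac (s h)) e))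
        = ar e (ar (dirac (s g)) (ar (ar e e) (ar (dirac (s h)) e))) := by simp only [ar_assoc]
      _ = ar e (ar (ar (dirac (s g)) (ar e (dirac (s h)))) e) := by rw [hee]; simp only [ar_assoc]
      _ = ar e (ar (dirac (s (g * h))) e) := hindep _ _ _ hq (hsm _)

end Pool.Agent.CupF
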