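import Mathlib

set_option autoImplicit false

/-!
# Means on a group concentrated on the fibres of a homomorphism

For a homomorphism `π : F →* G` we study finitely additive means on `F` concentrated on a fibre of `π`,
with the Arens product `ar`. The main result `exists_section` says that for a surjective `π` there is a
family of means `m g`, concentrated on the fibre over `g`, with `m g` times `m h` equal to `m (g * h)`.
-/

namespace Pool.Agent.CupF

open Filter Topology

/-- A bounded real function. -/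
def Bdd {X : Type*} (φ : X → ℝ) : Prop := ∃ C : ℝ, ∀ u, |φ u| ≤ C

section Basic

variable {F G : Type*} [Group F] [Group G]

/-- `m` is a mean on `F` (a positive unital additive functional on bounded functions, normalised to be
`0` on unbounded functions) concentrated on the fibre of `π` over `g`. -/
structure IsMean (π : F →* G) (g : G) (m : (F → ℝ) → ℝ) : Prop where
  unb : ∀ φ, ¬ Bdd φ → m φ = 0
  add : ∀ φ ψ, Bdd φ → Bdd ψ → m (fun u => φ u + ψ u) = m φ + m ψ
  le : ∀ (φ : F → ℝ) (C : ℝ), Bdd φ → (∀ u, π u = g → φ u ≤ C) → m φ ≤ C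

/-- The Arens product of two functionals. -/
def ar (m n : (F → ℝ) → ℝ) : (F → ℝ) → ℝ := fun φ => m (fun u => n (fun v => φ (u * v)))

lemma ar_assoc (m n p : (F → ℝ) → ℝ) : ar (ar m n) p = ar m (ar n p) := by
  funext φ
  simp only [ar, mul_assoc]

lemma bdd_const {X : Type*} (c : ℝ) : Bdd (fun _ : X => c) := ⟨|c|, fun _ => le_rfl⟩

lemma Bdd.neg {X : Type*} {φ : X → ℝ} (h : Bdd φ) : Bdd (fun u => - φ u) := by
  obtain ⟨C, hC⟩ := h
  exact ⟨C, fun u => by simpa using hC u⟩

lemma Bdd.add {X : Type*} {φ ψ : X → ℝ} (h : Bdd φ) (h' : Bdd ψ) : Bdd (fun u => φ u + ψ u) := by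
  obtain ⟨C, hC⟩ := h
  obtain ⟨D, hD⟩ := h'
  exact ⟨C + D, fun u => (abs_add_le _ _).trans (add_le_add (hC u) (hD u))⟩

lemma Bdd.sub {X : Type*} {φ ψ : X → ℝ} (h : Bdd φ) (h' : Bdd ψ) : Bdd (fun u => φ u - ψ u) := by
  simpa [sub_eq_add_neg] using h.add h'.neg

variable {π : F →* G} {g g' : G} {m n p : (F → ℝ) → ℝ}

namespace IsMean

lemma zero (hm : IsMean π g m) : m (fun _ => 0) = 0 := by
  have := hm.add (fun _ => 0) (fun _ => 0) (bdd_const 0) (bdd_const 0)
  simp only [add_zero] at this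
  linarith

lemma neg (hm : IsMean π g m) {φ : F → ℝ} (hφ : Bdd φ) : m (fun u => - φ u) = - m φ := by
  have := hm.add φ (fun u => - φ u) hφ hφ.neg
  simp only [add_neg_cancel] at this
  rw [hm.zero] at this
  linarith

lemma sub (hm : IsMean π g m) {φ ψ : F → ℝ} (hφ : Bdd φ) (hψ : Bdd ψ) :
    m (fun u => φ u - ψ u) = m φ - m ψ := by
  have := hm.add φ (fun u => - ψ u) hφ hψ.neg
  rw [hm.neg hψ] at this
  simpa [sub_eq_add_neg] using this

lemma ge (hm : IsMean π g m) {φ : F → ℝ} {C : ℝ} (hφ : Bdd φ) (h : ∀ u, π u = g → C ≤ φ u) :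
    C ≤ m φ := by
  have := hm.le (fun u => - φ u) (-C) hφ.neg (fun u hu => neg_le_neg (h u hu))
  rw [hm.neg hφ] at this
  linarith

lemma const (hm : IsMean π g m) {φ : F → ℝ} {C : ℝ} (hφ : Bdd φ) (h : ∀ u, π u = g → φ u = C) :
    m φ = C :=
  le_antisymm (hm.le φ C hφ fun u hu => (h u hu).le) (hm.ge hφ fun u hu => (h u hu).ge)

lemma const' (hm : IsMean π g m) (C : ℝ) : m (fun _ => C) = C :=
  hm.const (bdd_const C) fun _ _ => rfl

lemma abs_le (hm : IsMean π g m) {φ : F → ℝ} {C : ℝ} (h : ∀ u, |φ u| ≤ C) : |m φ| ≤ C := by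
  have hb : Bdd φ := ⟨C, h⟩
  rw [_root_.abs_le]
  exact ⟨hm.ge hb fun u _ => (_root_.abs_le.mp (h u)).1, hm.le φ C hb fun u _ => (_root_.abs_le.mp (h u)).2⟩

end IsMean

/-- If all slices of `Φ` are bounded by `C`, so is the function of slice means. -/
lemma bdd_slice {X : Type*} (hn : IsMean π g n) {Φ : X → F → ℝ} {C : ℝ} (h : ∀ x v, |Φ x v| ≤ C) :
    Bdd (fun x => n (Φ x)) := ⟨C, fun x => hn.abs_le (h x)⟩

lemma bdd_shift_iff {φ : F → ℝ} (u : F) : Bdd (fun v => φ (u * v)) ↔ Bdd φ := by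
  constructor
  · rintro ⟨C, hC⟩
    refine ⟨C, fun w => ?_⟩
    have := hC (u⁻¹ * w)
    simpa using this
  · rintro ⟨C, hC⟩
    exact ⟨C, fun v => hC _⟩

lemma ar_mean (hm : IsMean π g m) (hn : IsMean π g' n) : IsMean π (g * g') (ar m n) := by
  refine ⟨fun φ hφ => ?_, fun φ ψ hφ hψ => ?_, fun φ C hφ h => ?_⟩
  · have : (fun u => n (fun v => φ (u * v))) = fun _ => 0 := by
      funext u
      exact hn.unb _ (fun hb => hφ ((bdd_shift_iff u).1 hb))
    simp only [ar]
    rw [this]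
    exact hm.zero
  · simp only [ar]
    have h1 : (fun u => n (fun v => φ (u * v) + ψ (u * v)))
        = fun u => n (fun v => φ (u * v)) + n (fun v => ψ (u * v)) := by
      funext u
      exact hn.add _ _ ((bdd_shift_iff u).2 hφ) ((bdd_shift_iff u).2 hψ)
    rw [h1]
    obtain ⟨C, hC⟩ := hφ
    obtain ⟨D, hD⟩ := hψ
    exact hm.add _ _ (bdd_slice hn (C := C) fun x v => hC _) (bdd_slice hn (C := D) fun x v => hD _)
  · obtain ⟨D, hD⟩ := hφ
    refine hm.le _ C (bdd_slice hn (C := D) fun x v => hD _) fun u hu => ?_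
    refine hn.le _ C ⟨D, fun v => hD _⟩ fun v hv => ?_
    exact h _ (by rw [map_mul, hu, hv])

lemma continuous_ar (n : (F → ℝ) → ℝ) : Continuous (fun m : (F → ℝ) → ℝ => ar m n) :=
  continuous_pi fun φ => continuous_apply (fun u => n (fun v => φ (u * v)))

open Classical in
/-- The Dirac mean at `v`. -/
noncomputable def dirac (v : F) : (F → ℝ) → ℝ := fun φ => if Bdd φ then φ v else 0

lemma dirac_mean (π : F →* G) (v : F) : IsMean π (π v) (dirac v) := by
  refine ⟨fun φ hφ => by simp [dirac, hφ], fun φ ψ hφ hψ => by simp [dirac, hφ, hψ, hφ.add hψ],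
    fun φ C hφ h => ?_⟩
  simp only [dirac, hφ, if_true]
  exact h v rfl

lemma isClosed_mean (π : F →* G) (g : G) : IsClosed {m : (F → ℝ) → ℝ | IsMean π g m} := by
  have h : {m : (F → ℝ) → ℝ | IsMean π g m} =
      (⋂ φ : F → ℝ, ⋂ _ : ¬ Bdd φ, {m | m φ = 0}) ∩
      ((⋂ φ : F → ℝ, ⋂ ψ : F → ℝ, ⋂ _ : Bdd φ, ⋂ _ : Bdd ψ,
        {m | m (fun u => φ u + ψ u) = m φ + m ψ}) ∩
      (⋂ φ : F → ℝ, ⋂ C : ℝ, ⋂ _ : Bdd φ, ⋂ _ : ∀ u, π u = g → φ u ≤ C, {m | m φ ≤ C})) := by
    ext m
    simp only [Set.mem_ofPred_eq, Set.mem_inter_iff, Set.mem_iInter]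
    constructor
    · intro hm
      exact ⟨hm.unb, hm.add, hm.le⟩
    · rintro ⟨h1, h2, h3⟩
      exact ⟨h1, h2, h3⟩
  rw [h]
  refine IsClosed.inter ?_ (IsClosed.inter ?_ ?_)
  · refine isClosed_iInter fun φ => isClosed_iInter fun _ => ?_
    exact isClosed_eq (continuous_apply φ) continuous_const
  · refine isClosed_iInter fun φ => isClosed_iInter fun ψ => isClosed_iInter fun _ =>
      isClosed_iInter fun _ => ?_
    exact isClosed_eq (continuous_apply _) ((continuous_apply φ).add (continuous_apply ψ))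
  · refine isClosed_iInter fun φ => isClosed_iInter fun C => isClosed_iInter fun _ =>
      isClosed_iInter fun _ => ?_
    exact isClosed_le (continuous_apply φ) continuous_const

lemma isCompact_mean (π : F →* G) (g : G) : IsCompact {m : (F → ℝ) → ℝ | IsMean π g m} := by
  classical
  let B : (F → ℝ) → ℝ := fun φ => if h : Bdd φ then h.choose else 0
  have hK : IsCompact (Set.pi Set.univ fun φ : F → ℝ => Set.Icc (-(B φ)) (B φ)) :=
    isCompact_univ_pi fun φ => isCompact_Icc
  refine hK.of_isClosed_subset (isClosed_mean π g) fun m hm φ _ => ?_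
  by_cases h : Bdd φ
  · have hB : ∀ u, |φ u| ≤ B φ := by
      intro u
      simp only [B, h, dif_pos]
      exact h.choose_spec u
    exact _root_.abs_le.mp (IsMean.abs_le hm hB)
  · have h0 : m φ = 0 := IsMean.unb hm φ h
    have hB : B φ = 0 := by simp [B, h]
    show m φ ∈ Set.Icc (-(B φ)) (B φ)
    rw [h0, hB]
    simp

lemma convex_mean (π : F →* G) (g : G) : Convex ℝ {m : (F → ℝ) → ℝ | IsMean π g m} := by
  intro m hm n hn a b ha hb hab
  have hm' : IsMean π g m := hm
  have hn' : IsMean π g n := hn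
  refine ⟨fun φ hφ => ?_, fun φ ψ hφ hψ => ?_, fun φ C hφ h => ?_⟩
  · simp [hm'.unb φ hφ, hn'.unb φ hφ]
  · simp only [Pi.add_apply, Pi.smul_apply, smul_eq_mul]
    rw [hm'.add φ ψ hφ hψ, hn'.add φ ψ hφ hψ]
    ring
  · simp only [Pi.add_apply, Pi.smul_apply, smul_eq_mul]
    have h1 := mul_le_mul_of_nonneg_left (hm'.le φ C hφ h) ha
    have h2 := mul_le_mul_of_nonneg_left (hn'.le φ C hφ h) hb
    have h3 : a * C + b * C = C := by rw [← add_mul, hab, one_mul]
    linarith

end Basic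

end Pool.Agent.CupF
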