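import Mathlib

set_option autoImplicit false

/-!
# The orientation cocycle of `SL₂(ℝ)` and the exterior square of a nontrivial class
-/

namespace Pool.Agent.CupF

/-- The group `SL₂(ℝ)`. -/
abbrev SL := Matrix.SpecialLinearGroup (Fin 2) ℝ

/-- The lower left entry. -/
def cc (A : SL) : ℝ := A.1 1 0

/-- The orientation cocycle `sign (c_A c_B c_AB)`. -/
noncomputable def ori (A B : SL) : ℝ := ((SignType.sign (cc A * cc B * cc (A * B)) : SignType) : ℝ)

set_option synthInstance.maxSize 8192 in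
set_option maxRecDepth 100000 in
lemma sign_cases : ∀ s01 s12 s23 s02 s13 s03 : SignType,
    ((s01 * s23 = s03 * s12 → s02 * s13 = s01 * s23) ∧ (s01 * s23 = 0 → s02 * s13 = s03 * s12) ∧
      (s03 * s12 = 0 → s02 * s13 = s01 * s23)) →
    ((s01 = 0 → s02 = 0 → s12 = 0) ∧ (s01 = 0 → s12 = 0 → s02 = 0) ∧ (s02 = 0 → s12 = 0 → s01 = 0)) →
    ((s01 = 0 → s03 = 0 → s13 = 0) ∧ (s01 = 0 → s13 = 0 → s03 = 0) ∧ (s03 = 0 → s13 = 0 → s01 = 0)) →
    ((s02 = 0 → s03 = 0 → s23 = 0) ∧ (s02 = 0 → s23 = 0 → s03 = 0) ∧ (s03 = 0 → s23 = 0 → s02 = 0)) →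
    ((s12 = 0 → s13 = 0 → s23 = 0) ∧ (s12 = 0 → s23 = 0 → s13 = 0) ∧ (s13 = 0 → s23 = 0 → s12 = 0)) →
    (((s12 * s23 * s13 : SignType) : ℤ) - ((s02 * s23 * s03 : SignType) : ℤ)
      + ((s01 * s13 * s03 : SignType) : ℤ) - ((s01 * s12 * s02 : SignType) : ℤ) = 0) := by
  decide

lemma cc_mul (A B : SL) : cc (A * B) = A.1 1 0 * B.1 0 0 + A.1 1 1 * B.1 1 0 := by
  simp [cc, Matrix.mul_apply, Fin.sum_univ_two]

lemma cc_one : cc 1 = 0 := by simp [cc]

lemma det_eq (A : SL) : A.1 0 0 * A.1 1 1 - A.1 0 1 * A.1 1 0 = 1 := by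
  have := A.2
  rwa [Matrix.det_fin_two] at this

/-- `c = 0` defines a subgroup. -/
lemma cc_nondeg (A B : SL) : (cc A = 0 → cc (A * B) = 0 → cc B = 0) ∧
    (cc A = 0 → cc B = 0 → cc (A * B) = 0) ∧ (cc (A * B) = 0 → cc B = 0 → cc A = 0) := by
  refine ⟨fun h1 h2 => ?_, fun h1 h2 => ?_, fun h1 h2 => ?_⟩
  · rw [cc_mul] at h2
    simp only [cc] at h1 h2 ⊢
    have := det_eq A
    rw [h1] at this h2
    have hne : A.1 1 1 ≠ 0 := by
      intro h; rw [h] at this; simp at this
    have h3 : A.1 1 1 * B.1 1 0 = 0 := by linarith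
    exact (mul_eq_zero.mp h3).resolve_left hne
  · rw [cc_mul]
    simp only [cc] at h1 h2
    rw [h1, h2]; ring
  · rw [cc_mul] at h1
    simp only [cc] at h1 h2 ⊢
    have := det_eq B
    rw [h2] at this h1
    have hne : B.1 0 0 ≠ 0 := by
      intro h; rw [h] at this; simp at this
    have h3 : A.1 1 0 * B.1 0 0 = 0 := by linarith
    exact (mul_eq_zero.mp h3).resolve_right hne

lemma plucker (A B C : SL) :
    cc (A * B) * cc (B * C) = cc A * cc C + cc (A * (B * C)) * cc B := by
  have hB := det_eq B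
  have h1 : cc (A * (B * C)) = (A.1 1 0 * B.1 0 0 + A.1 1 1 * B.1 1 0) * C.1 0 0
      + (A.1 1 0 * B.1 0 1 + A.1 1 1 * B.1 1 1) * C.1 1 0 := by
    simp [cc, Matrix.mul_apply, Fin.sum_univ_two]
    ring
  rw [h1, cc_mul, cc_mul]
  simp only [cc]
  linear_combination (A.1 1 0 * C.1 1 0) * hB

lemma sign_add_rules (x y z : ℝ) (h : z = x + y) :
    (SignType.sign x = SignType.sign y → SignType.sign z = SignType.sign x) ∧
    (SignType.sign x = 0 → SignType.sign z = SignType.sign y) ∧
    (SignType.sign y = 0 → SignType.sign z = SignType.sign x) := by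
  subst h
  refine ⟨fun h => ?_, fun h => ?_, fun h => ?_⟩
  · rcases lt_trichotomy x 0 with hx | hx | hx
    · rw [sign_neg hx] at h ⊢
      have hy : y < 0 := by
        rcases lt_trichotomy y 0 with hy | hy | hy
        · exact hy
        · rw [hy, sign_zero] at h; exact absurd h (by decide)
        · rw [sign_pos hy] at h; exact absurd h (by decide)
      exact sign_neg (by linarith)
    · rw [hx, sign_zero] at h
      have hy : y = 0 := sign_eq_zero_iff.mp h.symm
      rw [hx, hy]; simp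
    · rw [sign_pos hx] at h ⊢
      have hy : 0 < y := by
        rcases lt_trichotomy y 0 with hy | hy | hy
        · rw [sign_neg hy] at h; exact absurd h (by decide)
        · rw [hy, sign_zero] at h; exact absurd h (by decide)
        · exact hy
      exact sign_pos (by linarith)
  · rw [sign_eq_zero_iff.mp h, zero_add]
  · rw [sign_eq_zero_iff.mp h, add_zero]

lemma ori_cocycle (A B C : SL) : ori B C - ori (A * B) C + ori A (B * C) - ori A B = 0 := by
  have hpl := plucker A B C
  have hr := sign_add_rules _ _ _ hpl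
  simp only [sign_mul] at hr
  obtain ⟨n1, n2, n3⟩ := cc_nondeg A B
  obtain ⟨n4, n5, n6⟩ := cc_nondeg A (B * C)
  obtain ⟨n7, n8, n9⟩ := cc_nondeg (A * B) C
  obtain ⟨n10, n11, n12⟩ := cc_nondeg B C
  rw [mul_assoc] at n7 n8 n9
  have key := sign_cases (SignType.sign (cc A)) (SignType.sign (cc B)) (SignType.sign (cc C))
    (SignType.sign (cc (A * B))) (SignType.sign (cc (B * C))) (SignType.sign (cc (A * (B * C)))) hr
    (by simp only [sign_eq_zero_iff]; exact ⟨n1, n2, n3⟩)
    (by simp only [sign_eq_zero_iff]; exact ⟨n4, n5, n6⟩)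
    (by simp only [sign_eq_zero_iff]; exact ⟨n7, n8, n9⟩)
    (by simp only [sign_eq_zero_iff]; exact ⟨fun h h' => n10 h h', fun h h' => n11 h h', fun h h' => n12 h h'⟩)
  have hcast : ∀ s : SignType, ((s : ℤ) : ℝ) = (s : ℝ) := by
    intro s
    cases s <;> simp
  have key2 := congrArg (Int.cast : ℤ → ℝ) key
  simp only [Int.cast_add, Int.cast_sub, Int.cast_zero, hcast] at key2
  unfold ori
  simp only [sign_mul, mul_assoc A B C] at key2 ⊢
  exact key2

lemma ori_abs (A B : SL) : |ori A B| ≤ 1 := by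
  unfold ori
  cases SignType.sign (cc A * cc B * cc (A * B)) <;> simp

lemma ori_of_left {A B : SL} (h : cc A = 0) : ori A B = 0 := by simp [ori, h]

lemma ori_of_right {A B : SL} (h : cc B = 0) : ori A B = 0 := by simp [ori, h]

lemma ori_of_mul {A B : SL} (h : cc (A * B) = 0) : ori A B = 0 := by simp [ori, h]

/-- Elements used below. -/
noncomputable def W : SL := ⟨!![0, -1; 1, 0], by simp [Matrix.det_fin_two]⟩
noncomputable def P (t : ℝ) : SL := ⟨!![1, t; 0, 1], by simp [Matrix.det_fin_two]⟩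
noncomputable def D : SL := ⟨!![2, 0; 0, 1 / 2], by simp [Matrix.det_fin_two]⟩
noncomputable def U : SL := ⟨!![0, -1; 1, 1], by simp [Matrix.det_fin_two]⟩
noncomputable def U2 : SL := ⟨!![-1, -1; 1, 0], by simp [Matrix.det_fin_two]⟩
noncomputable def N : SL := ⟨!![-1, 0; 0, -1], by simp [Matrix.det_fin_two]⟩

lemma sl_ext {A B : SL} (h : A.1 = B.1) : A = B := Subtype.ext h

lemma sl_mul_eq {A B C : SL} (h : A.1 * B.1 = C.1) : A * B = C := Subtype.ext h

lemma P_add (s t : ℝ) : P s * P t = P (s + t) := by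
  apply sl_mul_eq
  simp [P, add_comm]

lemma D_P : D * P 1 = P 4 * D := by
  apply sl_ext
  show D.1 * (P 1).1 = (P 4).1 * D.1
  simp [P, D]
  norm_num

lemma W_W : W * W = N := by
  apply sl_mul_eq
  simp [W, N]

lemma N_N : N * N = 1 := by
  apply sl_mul_eq
  ext i j
  fin_cases i <;> fin_cases j <;> simp [N]

lemma W_P : W * P 1 = U := by
  apply sl_mul_eq
  simp [W, P, U]

lemma U_U : U * U = U2 := by
  apply sl_mul_eq
  simp [U, U2]

lemma U2_U : U2 * U = N := by
  apply sl_mul_eq
  simp [U, U2, N]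

lemma cc_P (t : ℝ) : cc (P t) = 0 := by simp [cc, P]
lemma cc_D : cc D = 0 := by simp [cc, D]
lemma cc_N : cc N = 0 := by simp [cc, N]
lemma cc_W : cc W = 1 := by simp [cc, W]
lemma cc_U : cc U = 1 := by simp [cc, U]
lemma cc_U2 : cc U2 = 1 := by simp [cc, U2]

/-- The orientation cocycle is not the coboundary of any function. -/
theorem ori_ne (b : SL → ℝ) (hb : ∀ x y, b y - b (x * y) + b x = ori x y) : False := by
  have h1 : b 1 = 0 := by
    have := hb 1 1
    rw [ori_of_left cc_one, mul_one] at this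
    linarith
  have hN : b N = 0 := by
    have := hb N N
    rw [ori_of_left cc_N, N_N, h1] at this
    linarith
  have hW : b W = 0 := by
    have := hb W W
    rw [ori_of_mul (by rw [W_W]; exact cc_N), W_W, hN] at this
    linarith
  have hPP : ∀ s t, b (P (s + t)) = b (P s) + b (P t) := by
    intro s t
    have := hb (P s) (P t)
    rw [ori_of_left (cc_P s), P_add] at this
    linarith
  have hP4 : b (P 4) = b (P 1) := by
    have e1 := hb D (P 1)
    have e2 := hb (P 4) D
    rw [ori_of_left cc_D, D_P] at e1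
    rw [ori_of_left (cc_P 4)] at e2
    linarith
  have hP1 : b (P 1) = 0 := by
    have e1 := hPP 1 1
    have e2 := hPP 2 2
    norm_num at e1 e2
    linarith
  have hU : b U = 0 := by
    have := hb W (P 1)
    rw [ori_of_right (cc_P 1), W_P, hW, hP1] at this
    linarith
  have hU2 : b U2 = -1 := by
    have := hb U U
    have ho : ori U U = 1 := by
      unfold ori
      rw [U_U, cc_U, cc_U2]
      simp
    rw [ho, U_U, hU] at this
    linarith
  have := hb U2 U
  rw [ori_of_mul (by rw [U2_U]; exact cc_N), U2_U, hN, hU, hU2] at this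
  norm_num at this

section product

variable {Γ : Type*} [Group Γ]

/-- If `f` is a normalised 2-cocycle that is not a coboundary, the exterior product of `f` with itself
on `Γ × Γ` is not a coboundary. -/
theorem no_primitive (f : Γ → Γ → ℝ) (h1 : ∀ x, f 1 x = 0) (h2 : ∀ x, f x 1 = 0)
    (hne : ∀ b : Γ → ℝ, ¬ ∀ x y, b y - b (x * y) + b x = f x y)
    (H : Γ × Γ → Γ × Γ → Γ × Γ → ℝ)
    (hH : ∀ a b c d, H b c d - H (a * b) c d + H a (b * c) d - H a b (c * d) + H a b c
      = f a.1 b.1 * f c.2 d.2) : False := by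
  -- the space of coboundaries
  let δ : (Γ → ℝ) →ₗ[ℝ] (Γ → Γ → ℝ) :=
    { toFun := fun b x y => b y - b (x * y) + b x
      map_add' := by
        intro b b'
        funext x y
        simp only [Pi.add_apply]
        ring
      map_smul' := by
        intro r b
        funext x y
        simp only [Pi.smul_apply, smul_eq_mul, RingHom.id_apply]
        ring }
  have hf : f ∉ LinearMap.range δ := by
    rintro ⟨b, hb⟩
    exact hne b fun x y => congrFun (congrFun hb x) y
  obtain ⟨l, hl, hker⟩ := Submodule.exists_le_ker_of_notMem hf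
  have hlδ : ∀ k : Γ → ℝ, l (δ k) = 0 := fun k => hker (LinearMap.mem_range_self δ k)
  let S : Γ → Γ → Γ → ℝ := fun x a b =>
    H (x, 1) (1, a) (1, b) - H (1, a) (x, 1) (1, b) + H (1, a) (1, b) (x, 1)
  have key : ∀ x y, S y - S (x * y) + S x
      + δ (fun c => H (x, 1) (y, 1) (1, c) - H (x, 1) (1, c) (y, 1) + H (1, c) (x, 1) (y, 1))
      = f x y • f := by
    intro x y
    funext a b
    have e1 := hH (x, 1) (y, 1) (1, a) (1, b)
    have e2 := hH (x, 1) (1, a) (y, 1) (1, b)
    have e3 := hH (x, 1) (1, a) (1, b) (y, 1)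
    have e4 := hH (1, a) (x, 1) (y, 1) (1, b)
    have e5 := hH (1, a) (x, 1) (1, b) (y, 1)
    have e6 := hH (1, a) (1, b) (x, 1) (y, 1)
    simp only [Prod.mk_mul_mk, one_mul, mul_one, h1, h2, mul_zero, zero_mul] at e1 e2 e3 e4 e5 e6
    simp only [Pi.add_apply, Pi.sub_apply, Pi.smul_apply, smul_eq_mul, S, δ, LinearMap.coe_mk,
      AddHom.coe_mk]
    linear_combination e1 - e2 + e3 + e4 - e5 + e6
  refine hne (fun x => l (S x) / l f) fun x y => ?_
  have h := congrArg l (key x y)
  rw [map_add, map_add, map_sub, hlδ, map_smul, smul_eq_mul] at h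
  field_simp
  linarith

end product

end Pool.Agent.CupF
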