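import Pool.Agent.CupF.Cycle

set_option autoImplicit false

/-!
# The frame in `SL₂(ℤ)` and surjections of free groups onto `SL₂(ℤ) × SL₂(ℤ)`
-/

namespace Pool.Agent.CupF

open Matrix ModularGroup

/-- The group `SL₂(ℤ)`. -/
abbrev SZ := Matrix.SpecialLinearGroup (Fin 2) ℤ

/-- The inclusion of `SL₂(ℤ)` in `SL₂(ℝ)`. -/
noncomputable def toR : SZ →* SL := Matrix.SpecialLinearGroup.map (Int.castRingHom ℝ)

lemma cc_toR (A : SZ) : cc (toR A) = ((A.1 1 0 : ℤ) : ℝ) := by
  simp [cc, toR]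

/-- The frame. -/
def frameZ : Frame SZ where
  w := S
  n := S * S
  u := S * T
  u2 := (S * T) * (S * T)
  p := fun k => T ^ (2 ^ k)
  hw := rfl
  hn := by decide
  hwp := by simp
  huu := rfl
  hu3 := by decide
  hpp := fun k => by rw [← pow_add, ← two_mul, ← pow_succ']

/-- The orientation cocycle on `SL₂(ℤ)`. -/
noncomputable def oriZ (A B : SZ) : ℝ := ori (toR A) (toR B)

lemma oriZ_cocycle (A B C : SZ) :
    oriZ B C - oriZ (A * B) C + oriZ A (B * C) - oriZ A B = 0 := by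
  unfold oriZ
  rw [map_mul, map_mul]
  exact ori_cocycle _ _ _

lemma oriZ_abs (A B : SZ) : |oriZ A B| ≤ 1 := ori_abs _ _

lemma oriZ_one_left (A : SZ) : oriZ 1 A = 0 := by
  unfold oriZ
  rw [map_one]
  exact ori_of_left cc_one

lemma oriZ_one_right (A : SZ) : oriZ A 1 = 0 := by
  unfold oriZ
  rw [map_one]
  exact ori_of_right cc_one

lemma cc_T_pow (k : ℕ) : cc (toR (T ^ k)) = 0 := by
  rw [cc_toR]
  have := coe_T_zpow (k : ℤ)
  rw [zpow_natCast] at this
  rw [this]
  simp

lemma Zf_oriZ (m : ℕ) : Zf frameZ m oriZ = 1 := by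
  have c1 : cc (toR (S * T)) = 1 := by
    rw [cc_toR]
    have : (S * T : SZ).1 1 0 = 1 := by decide
    rw [this]; simp
  have c2 : cc (toR ((S * T) * (S * T))) = 1 := by
    rw [cc_toR]
    have : ((S * T) * (S * T) : SZ).1 1 0 = 1 := by decide
    rw [this]; simp
  have c3 : cc (toR (S * S)) = 0 := by
    rw [cc_toR]
    have : (S * S : SZ).1 1 0 = 0 := by decide
    rw [this]; simp
  have e1 : oriZ frameZ.u frameZ.u = 1 := by
    show ori (toR (S * T)) (toR (S * T)) = 1
    unfold ori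
    rw [← map_mul, c1, c2]
    simp
  have e2 : oriZ frameZ.u2 frameZ.u = 0 := by
    show ori (toR ((S * T) * (S * T))) (toR (S * T)) = 0
    apply ori_of_mul
    rw [← map_mul]
    have : ((S * T) * (S * T) * (S * T) : SZ) = S * S := by decide
    rw [this]
    exact c3
  have e3 : oriZ frameZ.n frameZ.n = 0 := ori_of_left c3
  have e4 : oriZ 1 1 = 0 := oriZ_one_left 1
  have e5 : oriZ frameZ.w (frameZ.p 0) = 0 := ori_of_right (cc_T_pow _)
  have e6 : oriZ frameZ.w frameZ.w = 0 := by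
    apply ori_of_mul
    rw [← map_mul]
    exact c3
  have e7 : ∀ k, oriZ (frameZ.p k) (frameZ.p k) = 0 := fun k => ori_of_left (cc_T_pow _)
  unfold Zf
  simp only [e1, e2, e3, e4, e5, e6, e7]
  simp

/-- An element of order three which generates `SL₂(ℤ)` together with `S`. -/
def V3 : SZ := (S * T) * (S * T)

lemma T_eq : (T : SZ) = S * V3⁻¹ := by
  have : (T : SZ) * V3 = S := by decide
  rw [← this, mul_inv_cancel_right]

lemma closure_S_V3 : Subgroup.closure {S, V3} = (⊤ : Subgroup SZ) := by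
  rw [← SpecialLinearGroup.SL2Z_generators]
  apply le_antisymm
  · rw [Subgroup.closure_le]
    rintro x (rfl | rfl)
    · exact Subgroup.subset_closure (Or.inl rfl)
    · rw [SpecialLinearGroup.SL2Z_generators]
      exact Subgroup.mem_top _
  · rw [Subgroup.closure_le]
    rintro x (rfl | rfl)
    · exact Subgroup.subset_closure (Or.inl rfl)
    · rw [T_eq]
      exact mul_mem (Subgroup.subset_closure (Or.inl rfl))
        (inv_mem (Subgroup.subset_closure (Or.inr rfl)))

lemma S4 : (S : SZ) ^ 4 = 1 := by decide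
lemma V33 : V3 ^ 3 = 1 := by decide

/-- A surjection of a free group of rank at least two onto `SL₂(ℤ) × SL₂(ℤ)`. -/
theorem exists_surj (α : Type*) [Nontrivial α] :
    ∃ π : FreeGroup α →* SZ × SZ, Function.Surjective π := by
  classical
  obtain ⟨a₀, a₁, hne⟩ := exists_pair_ne α
  let π : FreeGroup α →* SZ × SZ :=
    FreeGroup.lift fun a => if a = a₀ then ((S, V3) : SZ × SZ) else (V3, S)
  refine ⟨π, ?_⟩
  have hx : ((S, V3) : SZ × SZ) ∈ π.range := ⟨FreeGroup.of a₀, by simp [π]⟩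
  have hy : ((V3, S) : SZ × SZ) ∈ π.range := ⟨FreeGroup.of a₁, by simp [π, hne.symm]⟩
  have s9 : (S : SZ) ^ 9 = S := by
    calc (S : SZ) ^ 9 = (S ^ 4) ^ 2 * S := by rw [← pow_mul, ← pow_succ]
      _ = S := by rw [S4, one_pow, one_mul]
  have v9 : V3 ^ 9 = 1 := by
    calc V3 ^ 9 = (V3 ^ 3) ^ 3 := by rw [← pow_mul]
      _ = 1 := by rw [V33, one_pow]
  have v4 : V3 ^ 4 = V3 := by
    calc V3 ^ 4 = V3 ^ 3 * V3 := by rw [← pow_succ]
      _ = V3 := by rw [V33, one_mul]
  have m1 : ((S, 1) : SZ × SZ) ∈ π.range := by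
    have := pow_mem hx 9
    rwa [Prod.pow_mk, s9, v9] at this
  have m2 : ((1, V3) : SZ × SZ) ∈ π.range := by
    have := pow_mem hx 4
    rwa [Prod.pow_mk, S4, v4] at this
  have m3 : ((V3, 1) : SZ × SZ) ∈ π.range := by
    have := pow_mem hy 4
    rwa [Prod.pow_mk, S4, v4] at this
  have m4 : ((1, S) : SZ × SZ) ∈ π.range := by
    have := pow_mem hy 9
    rwa [Prod.pow_mk, s9, v9] at this
  have l1 : (⊤ : Subgroup SZ) ≤ π.range.comap (MonoidHom.inl SZ SZ) := by
    rw [← closure_S_V3, Subgroup.closure_le]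
    rintro x (rfl | rfl)
    · exact m1
    · exact m3
  have l2 : (⊤ : Subgroup SZ) ≤ π.range.comap (MonoidHom.inr SZ SZ) := by
    rw [← closure_S_V3, Subgroup.closure_le]
    rintro x (rfl | rfl)
    · exact m4
    · exact m2
  rintro ⟨A, B⟩
  have h1 : ((A, 1) : SZ × SZ) ∈ π.range := l1 (Subgroup.mem_top A)
  have h2 : ((1, B) : SZ × SZ) ∈ π.range := l2 (Subgroup.mem_top B)
  have h3 := mul_mem h1 h2
  rw [Prod.mk_mul_mk, one_mul, mul_one] at h3
  exact h3

end Pool.Agent.CupF
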