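import Pool.Agent.CupF.Ideal

set_option autoImplicit false

/-!
# Transfer of bounded primitives along a surjection
-/

namespace Pool.Agent.CupF

variable {F G : Type*} [Group F] [Group G] {π : F →* G}

/-- The iterated mean of a function of four variables. -/
def I4 (m₁ m₂ m₃ m₄ : (F → ℝ) → ℝ) (Φ : F → F → F → F → ℝ) : ℝ :=
  m₁ fun u => m₂ fun v => m₃ fun w => m₄ fun x => Φ u v w x

variable {a b c d : G} {m₁ m₂ m₃ m₄ : (F → ℝ) → ℝ}

lemma I4_add (h₁ : IsMean π a m₁) (h₂ : IsMean π b m₂) (h₃ : IsMean π c m₃) (h₄ : IsMean π d m₄)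
    {Φ Ψ : F → F → F → F → ℝ} {C D : ℝ} (hΦ : ∀ u v w x, |Φ u v w x| ≤ C)
    (hΨ : ∀ u v w x, |Ψ u v w x| ≤ D) :
    I4 m₁ m₂ m₃ m₄ (fun u v w x => Φ u v w x + Ψ u v w x)
      = I4 m₁ m₂ m₃ m₄ Φ + I4 m₁ m₂ m₃ m₄ Ψ := by
  have e4 : ∀ u v w, m₄ (fun x => Φ u v w x + Ψ u v w x) = m₄ (Φ u v w) + m₄ (Ψ u v w) :=
    fun u v w => h₄.add _ _ ⟨C, hΦ u v w⟩ ⟨D, hΨ u v w⟩
  have b4 : ∀ u v w, |m₄ (Φ u v w)| ≤ C := fun u v w => h₄.abs_le (hΦ u v w)
  have b4' : ∀ u v w, |m₄ (Ψ u v w)| ≤ D := fun u v w => h₄.abs_le (hΨ u v w)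
  have e3 : ∀ u v, m₃ (fun w => m₄ (Φ u v w) + m₄ (Ψ u v w))
      = m₃ (fun w => m₄ (Φ u v w)) + m₃ (fun w => m₄ (Ψ u v w)) :=
    fun u v => h₃.add _ _ ⟨C, b4 u v⟩ ⟨D, b4' u v⟩
  have b3 : ∀ u v, |m₃ (fun w => m₄ (Φ u v w))| ≤ C := fun u v => h₃.abs_le (b4 u v)
  have b3' : ∀ u v, |m₃ (fun w => m₄ (Ψ u v w))| ≤ D := fun u v => h₃.abs_le (b4' u v)
  have e2 : ∀ u, m₂ (fun v => m₃ (fun w => m₄ (Φ u v w)) + m₃ (fun w => m₄ (Ψ u v w)))
      = m₂ (fun v => m₃ (fun w => m₄ (Φ u v w))) + m₂ (fun v => m₃ (fun w => m₄ (Ψ u v w))) :=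
    fun u => h₂.add _ _ ⟨C, b3 u⟩ ⟨D, b3' u⟩
  have b2 : ∀ u, |m₂ (fun v => m₃ (fun w => m₄ (Φ u v w)))| ≤ C := fun u => h₂.abs_le (b3 u)
  have b2' : ∀ u, |m₂ (fun v => m₃ (fun w => m₄ (Ψ u v w)))| ≤ D := fun u => h₂.abs_le (b3' u)
  simp only [I4, e4, e3, e2]
  exact h₁.add _ _ ⟨C, b2⟩ ⟨D, b2'⟩

lemma I4_neg (h₁ : IsMean π a m₁) (h₂ : IsMean π b m₂) (h₃ : IsMean π c m₃) (h₄ : IsMean π d m₄)
    {Φ : F → F → F → F → ℝ} {C : ℝ} (hΦ : ∀ u v w x, |Φ u v w x| ≤ C) :
    I4 m₁ m₂ m₃ m₄ (fun u v w x => - Φ u v w x) = - I4 m₁ m₂ m₃ m₄ Φ := by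
  have h := I4_add h₁ h₂ h₃ h₄ hΦ (Ψ := fun u v w x => - Φ u v w x) (D := C)
    (fun u v w x => by rw [abs_neg]; exact hΦ u v w x)
  have h0 : I4 m₁ m₂ m₃ m₄ (fun u v w x => Φ u v w x + - Φ u v w x) = 0 := by
    simp only [I4, add_neg_cancel]
    rw [h₄.zero, h₃.zero, h₂.zero, h₁.zero]
  linarith

/-- A bounded primitive upstairs of a function pulled back from `G` gives a bounded primitive on `G`. -/
theorem transfer (hπ : Function.Surjective π) {h : F → F → F → ℝ} {C : ℝ}
    (hC : ∀ u v w, |h u v w| ≤ C) {E : G → G → G → G → ℝ}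
    (hE : ∀ u v w x, h v w x - h (u * v) w x + h u (v * w) x - h u v (w * x) + h u v w
      = E (π u) (π v) (π w) (π x)) :
    ∃ H : G → G → G → ℝ, (∀ a b c, |H a b c| ≤ C) ∧
      ∀ a b c d, H b c d - H (a * b) c d + H a (b * c) d - H a b (c * d) + H a b c = E a b c d := by
  obtain ⟨m, hm, hmul⟩ := exists_section hπ
  have hmul' : ∀ (g k : G) (φ : F → ℝ), m g (fun u => m k (fun v => φ (u * v))) = m (g * k) φ :=
    fun g k φ => congrFun (hmul g k) φ
  refine ⟨fun a b c => m a fun u => m b fun v => m c fun w => h u v w, fun a b c => ?_,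
    fun a b c d => ?_⟩
  · exact (hm a).abs_le fun u => (hm b).abs_le fun v => (hm c).abs_le fun w => hC u v w
  · -- the five faces
    have f1 : I4 (m a) (m b) (m c) (m d) (fun u v w x => h v w x)
        = m b fun v => m c fun w => m d fun x => h v w x := (hm a).const' _
    have f2 : I4 (m a) (m b) (m c) (m d) (fun u v w x => h (u * v) w x)
        = m (a * b) fun v => m c fun w => m d fun x => h v w x :=
      hmul' a b (fun y => m c fun w => m d fun x => h y w x)
    have f3 : I4 (m a) (m b) (m c) (m d) (fun u v w x => h u (v * w) x)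
        = m a fun u => m (b * c) fun v => m d fun x => h u v x := by
      simp only [I4]
      congr 1
      funext u
      exact hmul' b c (fun y => m d fun x => h u y x)
    have f4 : I4 (m a) (m b) (m c) (m d) (fun u v w x => h u v (w * x))
        = m a fun u => m b fun v => m (c * d) fun w => h u v w := by
      simp only [I4]
      congr 1
      funext u
      congr 1
      funext v
      exact hmul' c d (fun y => h u v y)
    have f5 : I4 (m a) (m b) (m c) (m d) (fun u v w x => h u v w)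
        = m a fun u => m b fun v => m c fun w => h u v w := by
      simp only [I4]
      congr 1
      funext u
      congr 1
      funext v
      congr 1
      funext w
      exact (hm d).const' _
    -- the pulled back function is integrated to its value
    have fE : I4 (m a) (m b) (m c) (m d) (fun u v w x => E (π u) (π v) (π w) (π x)) = E a b c d := by
      have hEb : ∀ u v w x, |E (π u) (π v) (π w) (π x)| ≤ 5 * C := by
        intro u v w x
        rw [← hE]
        have h1 := abs_le.mp (hC v w x)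
        have h2 := abs_le.mp (hC (u * v) w x)
        have h3 := abs_le.mp (hC u (v * w) x)
        have h4 := abs_le.mp (hC u v (w * x))
        have h5 := abs_le.mp (hC u v w)
        rw [abs_le]
        constructor <;> linarith [h1.1, h1.2, h2.1, h2.2, h3.1, h3.2, h4.1, h4.2, h5.1, h5.2]
      have e4 : ∀ u v w, m d (fun x => E (π u) (π v) (π w) (π x)) = E (π u) (π v) (π w) d :=
        fun u v w => (hm d).const ⟨5 * C, hEb u v w⟩ fun x hx => by rw [hx]
      have hb4 : ∀ u v w, |E (π u) (π v) (π w) d| ≤ 5 * C := fun u v w => by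
        rw [← e4]; exact (hm d).abs_le (hEb u v w)
      have e3 : ∀ u v, m c (fun w => E (π u) (π v) (π w) d) = E (π u) (π v) c d :=
        fun u v => (hm c).const ⟨5 * C, hb4 u v⟩ fun x hx => by rw [hx]
      have hb3 : ∀ u v, |E (π u) (π v) c d| ≤ 5 * C := fun u v => by
        rw [← e3]; exact (hm c).abs_le (hb4 u v)
      have e2 : ∀ u, m b (fun v => E (π u) (π v) c d) = E (π u) b c d :=
        fun u => (hm b).const ⟨5 * C, hb3 u⟩ fun x hx => by rw [hx]
      have hb2 : ∀ u, |E (π u) b c d| ≤ 5 * C := fun u => by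
        rw [← e2]; exact (hm b).abs_le (hb3 u)
      simp only [I4, e4, e3, e2]
      exact (hm a).const ⟨5 * C, hb2⟩ fun x hx => by rw [hx]
    rw [← fE]
    have hfun : (fun u v w x => E (π u) (π v) (π w) (π x)) = fun u v w x =>
        ((((h v w x + - h (u * v) w x) + h u (v * w) x) + - h u v (w * x)) + h u v w) := by
      funext u v w x
      rw [← hE]
      ring
    have habs1 : ∀ u v w x, |h v w x + - h (u * v) w x| ≤ C + C := fun u v w x =>
      (abs_add_le _ _).trans (add_le_add (hC _ _ _) (by rw [abs_neg]; exact hC _ _ _))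
    have habs2 : ∀ u v w x, |(h v w x + - h (u * v) w x) + h u (v * w) x| ≤ C + C + C :=
      fun u v w x => (abs_add_le _ _).trans (add_le_add (habs1 _ _ _ _) (hC _ _ _))
    have habs3 : ∀ u v w x, |((h v w x + - h (u * v) w x) + h u (v * w) x) + - h u v (w * x)|
        ≤ C + C + C + C :=
      fun u v w x => (abs_add_le _ _).trans (add_le_add (habs2 _ _ _ _)
        (by rw [abs_neg]; exact hC _ _ _))
    rw [hfun, I4_add (hm a) (hm b) (hm c) (hm d) habs3 (fun u v w x => hC u v w),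
      I4_add (hm a) (hm b) (hm c) (hm d) habs2
        (fun u v w x => by rw [abs_neg]; exact hC u v (w * x)),
      I4_add (hm a) (hm b) (hm c) (hm d) habs1 (fun u v w x => hC u (v * w) x),
      I4_add (hm a) (hm b) (hm c) (hm d) (fun u v w x => hC v w x)
        (fun u v w x => by rw [abs_neg]; exact hC (u * v) w x),
      I4_neg (hm a) (hm b) (hm c) (hm d) (fun u v w x => hC (u * v) w x),
      I4_neg (hm a) (hm b) (hm c) (hm d) (fun u v w x => hC u v (w * x)), f1, f2, f3, f4, f5]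
    ring

end Pool.Agent.CupF
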