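import Pool.Agent.CupF.Transfer

set_option autoImplicit false

/-!
# Approximate transfer along a surjection

The version with an error term of `Pool.Agent.CupF.transfer`.
-/

namespace Pool.Agent.CupF

variable {F G : Type*} [Group F] [Group G] {π : F →* G}

variable {a b c d : G} {m₁ m₂ m₃ m₄ : (F → ℝ) → ℝ}

lemma I4_abs (h₁ : IsMean π a m₁) (h₂ : IsMean π b m₂) (h₃ : IsMean π c m₃) (h₄ : IsMean π d m₄)
    {Φ : F → F → F → F → ℝ} {C : ℝ} (hΦ : ∀ u v w x, |Φ u v w x| ≤ C) :
    |I4 m₁ m₂ m₃ m₄ Φ| ≤ C :=
  h₁.abs_le fun u => h₂.abs_le fun v => h₃.abs_le fun w => h₄.abs_le fun x => hΦ u v w x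

/-- Approximate transfer of bounded primitives. -/
theorem transfer_eps (hπ : Function.Surjective π) {h : F → F → F → ℝ} {C B ε : ℝ}
    (hC : ∀ u v w, |h u v w| ≤ C) {E : G → G → G → G → ℝ} (hB : ∀ a b c d, |E a b c d| ≤ B)
    (hE : ∀ u v w x, |(h v w x - h (u * v) w x + h u (v * w) x - h u v (w * x) + h u v w)
      - E (π u) (π v) (π w) (π x)| ≤ ε) :
    ∃ H : G → G → G → ℝ, (∀ a b c, |H a b c| ≤ C) ∧
      ∀ a b c d, |(H b c d - H (a * b) c d + H a (b * c) d - H a b (c * d) + H a b c)
        - E a b c d| ≤ ε := by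
  obtain ⟨m, hm, hmul⟩ := exists_section hπ
  have hmul' : ∀ (g k : G) (φ : F → ℝ), m g (fun u => m k (fun v => φ (u * v))) = m (g * k) φ :=
    fun g k φ => congrFun (hmul g k) φ
  refine ⟨fun a b c => m a fun u => m b fun v => m c fun w => h u v w, fun a b c => ?_,
    fun a b c d => ?_⟩
  · exact (hm a).abs_le fun u => (hm b).abs_le fun v => (hm c).abs_le fun w => hC u v w
  · -- the five faces
    have f1 : I4 (m a) (m b) (m c) (m d) (fun u v w x => h v w x)
        = m b fun v => m c fun w => m d fun x => h v w x := (hm a).const' _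
    have f2 : I4 (m a) (m b) (m c) (m d) (fun u v w x => h (u * v) w x)
        = m (a * b) fun v => m c fun w => m d fun x => h v w x :=
      hmul' a b (fun y => m c fun w => m d fun x => h y w x)
    have f3 : I4 (m a) (m b) (m c) (m d) (fun u v w x => h u (v * w) x)
        = m a fun u => m (b * c) fun v => m d fun x => h u v x := by
      simp only [I4]
      congr 1
      funext u
      exact hmul' b c (fun y => m d fun x => h u y x)
    have f4 : I4 (m a) (m b) (m c) (m d) (fun u v w x => h u v (w * x))
        = m a fun u => m b fun v => m (c * d) fun w => h u v w := by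
      simp only [I4]
      congr 1
      funext u
      congr 1
      funext v
      exact hmul' c d (fun y => h u v y)
    have f5 : I4 (m a) (m b) (m c) (m d) (fun u v w x => h u v w)
        = m a fun u => m b fun v => m c fun w => h u v w := by
      simp only [I4]
      congr 1
      funext u
      congr 1
      funext v
      congr 1
      funext w
      exact (hm d).const' _
    -- the pulled back function is integrated to its value
    have hEb : ∀ u v w x, |E (π u) (π v) (π w) (π x)| ≤ B := fun u v w x => hB _ _ _ _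
    have fE : I4 (m a) (m b) (m c) (m d) (fun u v w x => E (π u) (π v) (π w) (π x)) = E a b c d := by
      have e4 : ∀ u v w, m d (fun x => E (π u) (π v) (π w) (π x)) = E (π u) (π v) (π w) d :=
        fun u v w => (hm d).const ⟨B, hEb u v w⟩ fun x hx => by rw [hx]
      have e3 : ∀ u v, m c (fun w => E (π u) (π v) (π w) d) = E (π u) (π v) c d :=
        fun u v => (hm c).const ⟨B, fun w => hB _ _ _ _⟩ fun x hx => by rw [hx]
      have e2 : ∀ u, m b (fun v => E (π u) (π v) c d) = E (π u) b c d :=
        fun u => (hm b).const ⟨B, fun w => hB _ _ _ _⟩ fun x hx => by rw [hx]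
      simp only [I4, e4, e3, e2]
      exact (hm a).const ⟨B, fun w => hB _ _ _ _⟩ fun x hx => by rw [hx]
    have habs1 : ∀ u v w x, |h v w x + - h (u * v) w x| ≤ C + C := fun u v w x =>
      (abs_add_le _ _).trans (add_le_add (hC _ _ _) (by rw [abs_neg]; exact hC _ _ _))
    have habs2 : ∀ u v w x, |(h v w x + - h (u * v) w x) + h u (v * w) x| ≤ C + C + C :=
      fun u v w x => (abs_add_le _ _).trans (add_le_add (habs1 _ _ _ _) (hC _ _ _))
    have habs3 : ∀ u v w x, |((h v w x + - h (u * v) w x) + h u (v * w) x) + - h u v (w * x)|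
        ≤ C + C + C + C :=
      fun u v w x => (abs_add_le _ _).trans (add_le_add (habs2 _ _ _ _)
        (by rw [abs_neg]; exact hC _ _ _))
    have habs4 : ∀ u v w x, |(((h v w x + - h (u * v) w x) + h u (v * w) x) + - h u v (w * x))
        + h u v w| ≤ C + C + C + C + C :=
      fun u v w x => (abs_add_le _ _).trans (add_le_add (habs3 _ _ _ _) (hC _ _ _))
    have key := I4_add (hm a) (hm b) (hm c) (hm d) habs4
      (Ψ := fun u v w x => - E (π u) (π v) (π w) (π x)) (D := B)
      (fun u v w x => by rw [abs_neg]; exact hEb u v w x)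
    rw [I4_add (hm a) (hm b) (hm c) (hm d) habs3 (fun u v w x => hC u v w),
      I4_add (hm a) (hm b) (hm c) (hm d) habs2
        (fun u v w x => by rw [abs_neg]; exact hC u v (w * x)),
      I4_add (hm a) (hm b) (hm c) (hm d) habs1 (fun u v w x => hC u (v * w) x),
      I4_add (hm a) (hm b) (hm c) (hm d) (fun u v w x => hC v w x)
        (fun u v w x => by rw [abs_neg]; exact hC (u * v) w x),
      I4_neg (hm a) (hm b) (hm c) (hm d) (fun u v w x => hC (u * v) w x),
      I4_neg (hm a) (hm b) (hm c) (hm d) (fun u v w x => hC u v (w * x)),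
      I4_neg (hm a) (hm b) (hm c) (hm d) hEb, f1, f2, f3, f4, f5, fE] at key
    have hlast := I4_abs (hm a) (hm b) (hm c) (hm d) (Φ := fun u v w x =>
      (((h v w x + - h (u * v) w x) + h u (v * w) x) + - h u v (w * x)) + h u v w
        + - E (π u) (π v) (π w) (π x)) (C := ε) (fun u v w x => by
        have := hE u v w x
        have e : (((h v w x + - h (u * v) w x) + h u (v * w) x) + - h u v (w * x)) + h u v w
          + - E (π u) (π v) (π w) (π x)
          = (h v w x - h (u * v) w x + h u (v * w) x - h u v (w * x) + h u v w)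
            - E (π u) (π v) (π w) (π x) := by ring
        rw [e]
        exact this)
    rw [key] at hlast
    have e : ∀ A1 A2 A3 A4 A5 A6 : ℝ, A1 + -A2 + A3 + -A4 + A5 + -A6 = (A1 - A2 + A3 - A4 + A5) - A6 := by
      intros; ring
    rw [e] at hlast
    exact hlast

end Pool.Agent.CupF
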